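import Pool.Agent.H380.BG.Stm
import Pool.Graph.R_seed8.W438.TW.RS4
import Pool.Graph.R_seed8.W54.TW.Unfold
import Pool.Graph.R_seed8.W54.TW.EisPairs
import Pool.Graph.R_seed8.W409.TW.EisLim
import Pool.Graph.R_seed8.W749.TW.EisBd
import Pool.Graph.R_seed8.W375.TW.Cusp
import Pool.Graph.R_seed8.W388.TW.XPars

/-!
# Rankin-Selberg integral of level one (task INT of project BG)
-/

set_option autoImplicit false

namespace Pool.Agent.H106.BG

open Complex MeasureTheory Filter Topology Set MatrixGroups CongruenceSubgroup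
open UpperHalfPlane hiding I
open Pool.Agent.X3.Tau (tau)
open Pool.Agent.H575.RD (la)
open Pool.Agent.H380.BG
open Pool.Agent.W438.TW (phi)
open scoped ENNReal Real

/-- the Eisenstein series at `2` is positive and finite -/
theorem hE2 (z : ℍ) : W388.EisG 1 2 z ≠ 0 ∧ W388.EisG 1 2 z ≠ ⊤ := by
  obtain ⟨κ, hκ, hlim⟩ := Pool.Agent.W409.TW.t_eislim 1
  have hz := z.im_pos
  constructor
  · have := Pool.Agent.W438.TW.eisG_ge W54.TW.t_eispairs 1 z
    intro h0
    rw [h0] at this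
    have h7 : (0 : ℝ) < z.im ^ (2 : ℝ) := by positivity
    have h8 : 0 < ENNReal.ofReal (z.im ^ (2 : ℝ)) := ENNReal.ofReal_pos.2 h7
    exact absurd this (not_le.2 h8)
  · have h2 := W54.TW.t_eispairs 1 2 z
    have h3 := (hlim z).1 1 one_pos
    rw [show (1 : ℝ) + 1 = 2 by norm_num] at h3
    rw [h2, ← ENNReal.ofReal_tsum_of_nonneg (fun p => by positivity) h3]
    exact ENNReal.ofReal_ne_top

/-- the Eisenstein series at `2` is bounded below -/
theorem eis_ge (z : ℍ) : ENNReal.ofReal (3 / 4) ≤ W388.EisG 1 2 z := by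
  obtain ⟨c, -, h⟩ := Pool.Agent.W438.TW.exists_fd W54.TW.t_eispairs 1
  obtain ⟨ρ, w, hz, hw, -, -, -⟩ := h z
  rw [hz, Pool.Agent.W438.TW.eisG_one_smul]
  refine le_trans ?_ (Pool.Agent.W438.TW.eisG_ge W54.TW.t_eispairs 1 w)
  apply ENNReal.ofReal_le_ofReal
  rw [show ((2 : ℝ)) = ((2 : ℕ) : ℝ) by norm_num, Real.rpow_natCast]
  calc (3 / 4 : ℝ) = (Real.sqrt 3 / 2) ^ 2 := by
        rw [div_pow, Real.sq_sqrt (by norm_num)]
        norm_num
    _ ≤ w.im ^ 2 := by
        gcongr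

theorem measE (s : ℝ) : Measurable (W388.EisG 1 s) :=
  Pool.Agent.W438.TW.measurable_eisG W54.TW.t_eispairs 1 s

theorem meas_im2 : Measurable (fun z : ℍ => ENNReal.ofReal (z.im ^ (2 : ℝ))) :=
  ENNReal.measurable_ofReal.comp (Pool.Agent.W438.TW.measurable_im.pow_const _)

/-- coefficients -/
theorem la_term (s : ℝ) (hs : 1 < s) (n : ℕ) :
    la n ^ 2 * (n : ℝ) ^ (-s) =
      ‖((tau n : ℤ) : ℂ)‖ ^ 2 * (n : ℝ) ^ (-(((12 : ℤ) : ℝ) + (s - 1))) := by
  have h1 : ‖((tau n : ℤ) : ℂ)‖ ^ 2 = ((tau n : ℤ) : ℝ) ^ 2 := by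
    rw [Complex.norm_intCast, sq_abs]
  rw [h1]
  rcases Nat.eq_zero_or_pos n with rfl | hn
  · rw [Nat.cast_zero, Real.zero_rpow (by linarith), Real.zero_rpow (by push_cast; linarith)]
    simp
  · have hn' : (0 : ℝ) < n := by exact_mod_cast hn
    unfold Pool.Agent.H575.RD.la
    rw [div_pow, ← Real.rpow_natCast ((n : ℝ) ^ (11 / 2 : ℝ)) 2, ← Real.rpow_mul hn'.le,
      div_mul_eq_mul_div, mul_div_assoc, ← Real.rpow_sub hn']
    congr 2
    push_cast
    ring

/-- the strip integral -/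
noncomputable def II (s : ℝ) : ℝ≥0∞ :=
  ∫⁻ z : ℍ, W388.strip z * (Ph z * ENNReal.ofReal (z.im ^ s))

theorem strip_ne_top (z : ℍ) : W388.strip z ≠ ⊤ := by
  unfold W388.strip
  split_ifs <;> simp

theorem nu_lint (hP : Measurable Ph) (g : ℍ → ℝ≥0∞) (hg : Measurable g) :
    ∫⁻ z, g z ∂nu = ∫⁻ z : ℍ, W388.strip z * (Ph z * ENNReal.ofReal (z.im ^ (2 : ℝ)) *
      (g z / W388.EisG 1 2 z)) := by
  have hd : Measurable (fun z : ℍ => W388.strip z * (Ph z * ENNReal.ofReal (z.im ^ (2 : ℝ)) *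
      (W388.EisG 1 2 z)⁻¹)) :=
    Pool.Agent.W438.TW.measurable_strip.mul ((hP.mul meas_im2).mul (measE 2).inv)
  unfold nu
  rw [lintegral_withDensity_eq_lintegral_mul _ hd hg]
  refine lintegral_congr fun z => ?_
  simp only [Pi.mul_apply, div_eq_mul_inv]
  ring

/-- **Task INT.** -/
theorem t_INT (h : S_GA) : S_INT := by
  obtain ⟨f, hf1, hf2⟩ := h
  have hPh : ∀ z, Ph z = phi f z := by
    intro z
    unfold Ph Pool.Agent.W438.TW.phi
    rw [hf1 z]
  have hPhf : Ph = phi f := funext hPh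
  have hP : Measurable Ph := by
    rw [hPhf]
    exact Pool.Agent.W438.TW.measurable_phi f
  have hE2' : ∀ z : ℍ, W388.EisG 1 2 z ≠ 0 ∧ W388.EisG 1 2 z ≠ ⊤ := hE2
  -- unfolding
  have hunf : ∀ s : ℝ, II s = ∫⁻ z : ℍ, W388.strip z *
      (Ph z * ENNReal.ofReal (z.im ^ (2 : ℝ)) * (W388.EisG 1 s z / W388.EisG 1 2 z)) := by
    intro s
    unfold II
    rw [hPhf]
    exact W54.TW.t_unfold 1 (phi f) (Pool.Agent.W438.TW.measurable_phi f)
      (fun γ hγ z => Pool.Agent.W438.TW.phi_smul f γ hγ z) s hE2'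
  -- Parseval
  have hpars : ∀ s : ℝ, 1 < s →
      II s = ENNReal.ofReal (Real.Gamma (11 + s) / (4 * π) ^ (11 + s)) * rs s := by
    intro s hs
    have h1 := W388.XPars.t_pars 1 12 (by norm_num) f (s - 1) (by linarith)
    have e1 : 1 + (s - 1) = s := by ring
    have e2 : (((12 : ℤ) : ℝ) + (s - 1)) = 11 + s := by push_cast; ring
    have e3 : II s = ∫⁻ z : ℍ, W388.strip z * (ENNReal.ofReal (‖f z‖ ^ 2 * z.im ^ (12 : ℤ)) *
        ENNReal.ofReal (z.im ^ (1 + (s - 1)))) := by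
      unfold II
      rw [hPhf, e1]
      rfl
    rw [e3, h1]
    congr 1
    · rw [e2]
    · unfold rs
      refine tsum_congr fun n => ?_
      rw [hf2 n, la_term s hs n]
  have hint : ∀ s : ℝ, 1 < s → ∫⁻ z, W388.EisG 1 s z ∂nu =
      ENNReal.ofReal (Real.Gamma (11 + s) / (4 * π) ^ (11 + s)) * rs s := by
    intro s hs
    rw [nu_lint hP _ (measE s), ← hunf s, hpars s hs]
  have hg : ∀ s : ℝ, 1 < s → 0 < Real.Gamma (11 + s) / (4 * π) ^ (11 + s) := by
    intro s hs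
    have : 0 < Real.Gamma (11 + s) := Real.Gamma_pos_of_pos (by linarith)
    positivity
  -- finiteness for `s ≤ 2`
  have hfin2 : ∀ s : ℝ, 1 < s → s ≤ 2 → rs s ≠ ⊤ := by
    intro s hs hs2
    obtain ⟨D, hD, hdom⟩ := Pool.Agent.W438.TW.integrand_le W54.TW.t_eispairs
      Pool.Agent.W749.TW.t_eisbd W388.t_cusp 1 12 f
    have hb := Pool.Agent.W438.TW.bound_fin D
    have h1 : ENNReal.ofReal (s - 1) * II s ≠ ⊤ := by
      refine ne_top_of_le_ne_top hb ?_
      rw [hunf s, ← lintegral_const_mul' _ _ ENNReal.ofReal_ne_top, hPhf]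
      refine lintegral_mono fun z => ?_
      have h2 := hdom z (s - 1) (by linarith) (by linarith)
      have e1 : 1 + (s - 1) = s := by ring
      rw [e1] at h2
      exact h2
    intro htop
    apply h1
    rw [hpars s hs, htop, ENNReal.mul_top (by simpa using hg s hs)]
    exact ENNReal.mul_top (by simpa using hs)
  have hfin : ∀ s : ℝ, 1 < s → rs s ≠ ⊤ := by
    intro s hs
    rcases le_or_gt s 2 with h | h
    · exact hfin2 s hs h
    · refine ne_top_of_le_ne_top (hfin2 2 one_lt_two le_rfl) ?_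
      unfold rs
      refine ENNReal.tsum_le_tsum fun n => ?_
      apply ENNReal.ofReal_le_ofReal
      rcases Nat.eq_zero_or_pos n with rfl | hn
      · rw [Nat.cast_zero, Real.zero_rpow (by linarith), Real.zero_rpow (by norm_num)]
      · have hn' : (1 : ℝ) ≤ n := by exact_mod_cast hn
        gcongr
  have hrs0 : rs 2 ≠ 0 := by
    intro h0
    have h1 : ENNReal.ofReal (la 1 ^ 2 * ((1 : ℕ) : ℝ) ^ (-(2 : ℝ))) ≤ 0 := by
      rw [← h0]
      exact ENNReal.le_tsum (f := fun n : ℕ => ENNReal.ofReal (la n ^ 2 * (n : ℝ) ^ (-(2 : ℝ)))) 1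
    rw [Pool.Agent.H575.RD.la_one] at h1
    simp at h1
  refine ⟨?_, ?_, hfin, hint⟩
  · intro h0
    have h1 : nu = 0 := Measure.measure_univ_eq_zero.1 h0
    have h2 := hint 2 one_lt_two
    rw [h1, lintegral_zero_measure] at h2
    have h3 := h2.symm
    rw [mul_eq_zero] at h3
    rcases h3 with h3 | h3
    · exact absurd h3 (by simpa using hg 2 one_lt_two)
    · exact hrs0 h3
  · have h1 : ENNReal.ofReal (3 / 4) * nu univ ≤ ∫⁻ z, W388.EisG 1 2 z ∂nu := by
      calc ENNReal.ofReal (3 / 4) * nu univ = ∫⁻ _z : ℍ, ENNReal.ofReal (3 / 4) ∂nu := by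
            rw [lintegral_const]
        _ ≤ ∫⁻ z, W388.EisG 1 2 z ∂nu := lintegral_mono fun z => eis_ge z
    intro htop
    rw [htop, ENNReal.mul_top (by norm_num), hint 2 one_lt_two] at h1
    exact (ENNReal.mul_ne_top ENNReal.ofReal_ne_top (hfin 2 one_lt_two)) (top_le_iff.1 h1)

end Pool.Agent.H106.BG
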